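import Pool.Agent.Helper70.GUM.St2

/-! Module FIN3 of project GUM (helper60, helper70): the base case `GU_3(q)`. -/

set_option autoImplicit false

namespace Pool.Agent.Helper32.GUM

open Pool.Agent.Helper70.GUM Module OG UN

universe u v w z y o

section

variable {k F R K : Type*} [Field k] [Field F] [Algebra k F] {σ : F ≃ₐ[k] F} {hσ : QE σ}
  [CommRing R] [Field K] [Algebra R K] {E Ω : Type*} [Group E] [MulAction E Ω] {H : Set E} {S : Set Ω}

/-- the coefficients of the indicator function of the point at infinity -/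
noncomputable def An (G : G3 hσ H S) (N : Submodule R (Ω → K)) : Submodule R K where
  carrier := {c | (fun s => c * G.del K s) ∈ N}
  zero_mem' := by
    have : (fun s => (0 : K) * G.del K s) = 0 := by
      funext s
      simp
    change (fun s => (0 : K) * G.del K s) ∈ N
    rw [this]
    exact zero_mem _
  add_mem' := by
    intro a b ha hb
    have h : (fun s => (a + b) * G.del K s) = (fun s => a * G.del K s) + (fun s => b * G.del K s) := by
      funext s
      simp [add_mul]
    change (fun s => (a + b) * G.del K s) ∈ N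
    rw [h]
    exact N.add_mem ha hb
  smul_mem' := by
    intro r a ha
    have h : (fun s => (r • a) * G.del K s) = r • (fun s => a * G.del K s) := by
      funext s
      simp
    change (fun s => (r • a) * G.del K s) ∈ N
    rw [h]
    exact N.smul_mem r ha

theorem mem_An {G : G3 hσ H S} {N : Submodule R (Ω → K)} {c : K} :
    c ∈ An G N ↔ (fun s => c * G.del K s) ∈ N := Iff.rfl

/-- the coefficients of `Θ_0` modulo the point at infinity -/
noncomputable def Bn (G : G3 hσ H S) (χ : AddChar F R) (N : Submodule R (Ω → K)) : Submodule R K where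
  carrier := {c | ∃ c' : K, (fun s => c' * G.del K s + c * G.th K χ 0 s) ∈ N}
  zero_mem' := by
    refine ⟨0, ?_⟩
    have : (fun s => (0 : K) * G.del K s + 0 * G.th K χ 0 s) = 0 := by
      funext s
      simp
    rw [this]
    exact zero_mem _
  add_mem' := by
    rintro a b ⟨a', ha⟩ ⟨b', hb⟩
    refine ⟨a' + b', ?_⟩
    have h : (fun s => (a' + b') * G.del K s + (a + b) * G.th K χ 0 s)
        = (fun s => a' * G.del K s + a * G.th K χ 0 s) + (fun s => b' * G.del K s + b * G.th K χ 0 s) := by
      funext s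
      simp only [Pi.add_apply]
      ring
    rw [h]
    exact N.add_mem ha hb
  smul_mem' := by
    rintro r a ⟨a', ha⟩
    refine ⟨r • a', ?_⟩
    have h : (fun s => (r • a') * G.del K s + (r • a) * G.th K χ 0 s)
        = r • (fun s => a' * G.del K s + a * G.th K χ 0 s) := by
      funext s
      simp only [Pi.smul_apply, smul_add, smul_mul_assoc]
    rw [h]
    exact N.smul_mem r ha

theorem mem_Bn {G : G3 hσ H S} {χ : AddChar F R} {N : Submodule R (Ω → K)} {c : K} :
    c ∈ Bn G χ N ↔ ∃ c' : K, (fun s => c' * G.del K s + c * G.th K χ 0 s) ∈ N := Iff.rfl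

end

theorem hFIN3 (hSUM : StSUM.{u, v, w, z}) (hBAS : StBAS.{u, v, w, z}) (hPOW : StPOW.{u, v, w, z})
    (hONE : StONE.{w, z}) (hCH3 : StCH3.{u, v, w, z}) (hACT : StACT.{u, v, z, y, o})
    (hSND : StSND.{u, v, w, z, y, o}) (hGEN3 : StGEN3.{u, v, w, z, y, o}) : StFIN3.{u, v, w, z, y, o} := by
  intro k F R K E Ω _ _ _ _ _ σ _ _ _ _ _ _ hσ _ _ H S G χ r x hC hcard
  have hS : Sums σ χ x := hSUM hσ hC hcard
  have hB : Bas (K := K) hσ χ r := hBAS hσ χ r
  have hP := (hPOW hσ hC hS hB).1
  have hA : Ac (K := K) G := hACT G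
  intro N hN n
  have hHS : ∀ i, HS H S (N i) := fun i => ⟨hN.supp i, fun g hg f hf => hN.stab g hg i f hf⟩
  have hSN := fun i => hSND G hC hS hB hP hA (N i) (hHS i)
  -- the four sequences
  have sA : (steps (fun i => An G (N i)) n).card ≤ 1 := by
    refine hONE (fun i => An G (N i)) ?_ ?_ n
    · intro i j hij c hc
      exact hN.mono hij hc
    · intro i a ha c hc
      have h : (fun s => (a • c) * G.del K s) = a • (fun s => c * G.del K s) := by
        funext s
        simp
      rw [mem_An, h]
      exact hN.red i a ha _ hc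
  have sB : (steps (fun i => Bn G χ (N i)) n).card ≤ 1 := by
    refine hONE (fun i => Bn G χ (N i)) ?_ ?_ n
    · rintro i j hij c ⟨c', hc⟩
      exact ⟨c', hN.mono hij hc⟩
    · rintro i a ha c ⟨c', hc⟩
      refine ⟨a • c', ?_⟩
      have h : (fun s => (a • c') * G.del K s + (a • c) * G.th K χ 0 s)
          = a • (fun s => c' * G.del K s + c * G.th K χ 0 s) := by
        funext s
        simp only [Pi.smul_apply, smul_add, smul_mul_assoc]
      rw [h]
      exact hN.red i a ha _ hc
  have sJQ : (steps (fun i => (Jn G χ (N i), Qn G χ (N i))) n).card ≤ 5 := by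
    refine hCH3 hσ hC hS hB (fun i => Jn G χ (N i)) (fun i => Qn G χ (N i)) ?_ ?_ ?_ ?_ ?_ ?_ ?_ ?_ n
    · intro i j hij c hc
      exact hN.mono hij hc
    · intro i j hij φ hφ
      exact ⟨hφ.1, hN.mono hij hφ.2⟩
    · intro i φ hφ
      exact hφ.1
    · intro i φ hφ u
      refine ⟨hB.ltF u φ hφ.1, ?_⟩
      have h : G.ext (Lt R u φ) = act (G.e u) (G.ext φ) := (hA.eext u φ).symm
      rw [h]
      exact hN.stab _ (G.e_mem u) i _ hφ.2
    · intro i f hf
      exact (hSN i).1 f hf
    · intro i f hf
      exact (hSN i).2 f hf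
    · intro i a ha φ hφ
      refine ⟨Submodule.smul_mem _ a hφ.1, ?_⟩
      rw [G.ext_smul]
      exact hN.red i a ha _ hφ.2
    · intro i a ha c hc
      have h : (fun s => (a • c) * G.th K χ 1 s) = a • (fun s => c * G.th K χ 1 s) := by
        funext s
        simp
      rw [mem_Jn, h]
      exact hN.red i a ha _ hc
  have sBJQ : (steps (fun i => (Bn G χ (N i), (Jn G χ (N i), Qn G χ (N i)))) n).card ≤ 1 + 5 := by
    refine steps_le_two _ (fun i => Bn G χ (N i)) (fun i => (Jn G χ (N i), Qn G χ (N i))) 1 5 n ?_ sB sJQ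
    intro i h1 h2
    exact Prod.ext h1 h2
  have : (steps N n).card ≤ 1 + (1 + 5) := by
    refine steps_le_two N (fun i => An G (N i)) (fun i => (Bn G χ (N i), (Jn G χ (N i), Qn G χ (N i))))
      1 (1 + 5) n ?_ sA sBJQ
    intro i h1 h2
    have h3 := congrArg Prod.fst h2
    have h4 := congrArg Prod.fst (congrArg Prod.snd h2)
    have h5 := congrArg Prod.snd (congrArg Prod.snd h2)
    have h1' : An G (N i) = An G (N (i + 1)) := h1
    have h3' : Bn G χ (N i) = Bn G χ (N (i + 1)) := h3
    have h4' : Jn G χ (N i) = Jn G χ (N (i + 1)) := h4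
    have h5' : Qn G χ (N i) = Qn G χ (N (i + 1)) := h5
    refine hGEN3 G hC hS hB hA (N i) (N (i + 1)) (hHS i) (hHS (i + 1)) (hN.mono (Nat.le_succ i))
      ?_ ?_ (le_of_eq h4'.symm) (le_of_eq h5'.symm)
    · intro c hc
      have : c ∈ An G (N (i + 1)) := hc
      rw [← h1'] at this
      exact this
    · intro c c' hc
      have : c ∈ Bn G χ (N (i + 1)) := ⟨c', hc⟩
      rw [← h3'] at this
      exact this
  exact this

end Pool.Agent.Helper32.GUM
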